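import Mathlib

set_option autoImplicit false

namespace Pool.Agent.Results.MP_425159_co.ModFour

theorem result (S : Type) [Fintype S] (m : S → S → S)
    (hl : ∀ a b, ∃! x, m a x = b) (hr : ∀ a b, ∃! x, m x a = b)
    (hid : ∀ x y, m (m (m x y) x) y = x) :
    Fintype.card S % 4 = 0 ∨ Fintype.card S % 4 = 1 := by
  classical
  have ia : Function.Injective (fun p : S × S => (p.1, m p.1 p.2)) := by
    rintro ⟨a, b⟩ ⟨c, d⟩ h
    simp only [Prod.mk.injEq] at h
    obtain ⟨rfl, h⟩ := h
    rw [(hl a (m a d)).unique h rfl]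
  have ib : Function.Injective (fun p : S × S => (m p.1 p.2, p.2)) := by
    rintro ⟨a, b⟩ ⟨c, d⟩ h
    simp only [Prod.mk.injEq] at h
    obtain ⟨h, rfl⟩ := h
    rw [(hr b (m c b)).unique h rfl]
  let A : Equiv.Perm (S × S) := Equiv.ofBijective _ (Finite.injective_iff_bijective.1 ia)
  let B : Equiv.Perm (S × S) := Equiv.ofBijective _ (Finite.injective_iff_bijective.1 ib)
  let T : Equiv.Perm (S × S) := Equiv.prodComm S S
  have key : B * T * A * B = A := by
    ext ⟨w, y⟩
    · exact (hr y (m w y)).unique (hid (m w y) y) rfl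
    · rfl
  have hs : Equiv.Perm.sign T = 1 := by
    have := congrArg Equiv.Perm.sign key
    rw [map_mul, map_mul, map_mul] at this
    rcases Int.units_eq_one_or (Equiv.Perm.sign T) with h | h
    · exact h
    · rcases Int.units_eq_one_or (Equiv.Perm.sign A) with h1 | h1 <;>
        rcases Int.units_eq_one_or (Equiv.Perm.sign B) with h2 | h2 <;>
        rw [h, h1, h2] at this <;> exact absurd this (by decide)
  have h2 : T ^ 2 = 1 := by
    ext ⟨x, y⟩ <;> rfl
  rw [Equiv.Perm.sign_of_pow_two_eq_one h2] at hs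
  have hf : Fintype.card (Function.fixedPoints T) = Fintype.card S := by
    refine Fintype.card_congr ⟨fun p => p.1.1, fun x => ⟨(x, x), rfl⟩, ?_, fun _ => rfl⟩
    rintro ⟨⟨x, y⟩, h⟩
    have : y = x := congrArg Prod.fst h
    subst this
    rfl
  rw [hf, Fintype.card_prod] at hs
  have he : Even ((Fintype.card S * Fintype.card S - Fintype.card S) / 2) := by
    by_contra h
    rw [(Nat.not_even_iff_odd.1 h).neg_one_pow] at hs
    exact absurd hs (by decide)
  generalize Fintype.card S = n at he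
  obtain ⟨k, hk⟩ := he
  have h1 : n ≤ n * n := Nat.le_mul_self n
  obtain ⟨q, hq⟩ : ∃ q, n = 4 * q + n % 4 := ⟨n / 4, by omega⟩
  have h3 : n % 4 < 4 := Nat.mod_lt _ (by norm_num)
  by_contra hc
  have h4 : n % 4 = 2 ∨ n % 4 = 3 := by omega
  rcases h4 with h4 | h4
  · have : n * n = 16 * (q * q) + 16 * q + 4 := by rw [hq, h4]; ring
    omega
  · have : n * n = 16 * (q * q) + 24 * q + 9 := by rw [hq, h4]; ring
    omega

end Pool.Agent.Results.MP_425159_co.ModFour
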